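import Mathlib

set_option autoImplicit false

namespace Pool.Agent.Results.MP_89a31a_co.NotClosed

/-- `S` is a maximal stable set of `G`. -/
def IsMaxStable {V : Type} (G : SimpleGraph V) (S : Finset V) : Prop :=
  Maximal (fun T : Finset V => G.IsIndepSet (T : Set V)) S

/-- `G` is equistable: positive weights for which the sets of weight one are exactly the
maximal stable sets. -/
def Equistable {V : Type} (G : SimpleGraph V) : Prop :=
  ∃ φ : V → ℝ, (∀ v, 0 < φ v) ∧ ∀ S : Finset V, IsMaxStable G S ↔ ∑ v ∈ S, φ v = 1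

/-- `G` is strongly equistable. -/
def StronglyEquistable {V : Type} (G : SimpleGraph V) : Prop :=
  ∀ T : Finset V, T.Nonempty → ¬ IsMaxStable G T → ∀ γ : ℝ, γ ≤ 1 →
    ∃ φ : V → ℝ, (∀ v, 0 < φ v) ∧
      (∀ S : Finset V, IsMaxStable G S → ∑ v ∈ S, φ v = 1) ∧ ∑ v ∈ T, φ v ≠ γ

/-- The graph obtained from `G` by deleting `v`, adding a disjoint copy of `H`, and joining
every vertex of the copy to every neighbour of `v`. -/
def substitute {V W : Type} (G : SimpleGraph V) (v : V) (H : SimpleGraph W) :
    SimpleGraph ({x : V // x ≠ v} ⊕ W) where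
  Adj
    | .inl x, .inl y => G.Adj x y
    | .inl x, .inr _ => G.Adj x v
    | .inr _, .inl y => G.Adj v y
    | .inr a, .inr b => H.Adj a b
  symm := ⟨by
    rintro (x | a) (y | b) h
    · exact G.symm.symm _ _ h
    · exact G.symm.symm _ _ h
    · exact G.symm.symm _ _ h
    · exact H.symm.symm _ _ h⟩
  loopless := ⟨by
    rintro (x | a) h
    · exact G.loopless.irrefl _ h
    · exact H.loopless.irrefl _ h⟩

/-! ### A checkable form of maximality -/

theorem isMaxStable_iff {V : Type} [DecidableEq V] (G : SimpleGraph V) (S : Finset V) :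
    IsMaxStable G S ↔
      (∀ a ∈ S, ∀ b ∈ S, ¬ G.Adj a b) ∧ ∀ w, w ∉ S → ∃ s ∈ S, G.Adj s w := by
  constructor
  · rintro ⟨h1, h2⟩
    have hst : ∀ a ∈ S, ∀ b ∈ S, ¬ G.Adj a b := by
      intro a ha b hb hab
      exact h1 (by exact_mod_cast ha) (by exact_mod_cast hb) hab.ne hab
    refine ⟨hst, ?_⟩
    intro w hw
    by_contra hcon
    push Not at hcon
    have h3 : G.IsIndepSet ((insert w S : Finset V) : Set V) := by
      intro a ha b hb hne hab
      simp only [Finset.coe_insert, Set.mem_insert_iff, Finset.mem_coe] at ha hb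
      rcases ha with rfl | ha <;> rcases hb with rfl | hb
      · exact hne rfl
      · exact hcon _ hb hab.symm
      · exact hcon _ ha hab
      · exact hst a ha b hb hab
    have h4 := h2 h3 (Finset.subset_insert w S)
    exact hw (h4 (Finset.mem_insert_self w S))
  · rintro ⟨h1, h2⟩
    refine ⟨?_, ?_⟩
    · intro a ha b hb _ hab
      exact h1 a (by exact_mod_cast ha) b (by exact_mod_cast hb) hab
    · intro T hT hST w hw
      by_contra hcon
      obtain ⟨s, hs, hsw⟩ := h2 w hcon
      exact hT (by exact_mod_cast hST hs) (by exact_mod_cast hw) hsw.ne hsw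

/-! ### The graph `G`: the complement of the line graph of a cubic triangle-free graph -/

/-- The 30 edges of a cubic triangle-free graph on the vertices `0, …, 19`; an edge `ab` is
coded as the number `2 ^ a + 2 ^ b`. -/
def endsList : List ℕ :=
  [3, 33, 65, 130, 258, 68, 260, 516, 40, 136, 264, 48, 80, 144, 1536, 16896, 3072, 66560,
    34816, 264192, 12288, 69632, 266240, 40960, 139264, 49152, 540672, 589824, 393216, 655360]

/-- The code of the `i`-th edge. -/
def ends (i : Fin 30) : ℕ := endsList.getD i.val 0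

/-- Two edges are adjacent in `base` when they are disjoint. -/
def base : SimpleGraph (Fin 30) where
  Adj i j := i ≠ j ∧ ends i &&& ends j = 0
  symm := ⟨by
    intro i j h
    exact ⟨h.1.symm, by rw [Nat.land_comm]; exact h.2⟩⟩
  loopless := ⟨fun i h => h.1 rfl⟩

instance : DecidableRel base.Adj := fun i j =>
  inferInstanceAs (Decidable (i ≠ j ∧ ends i &&& ends j = 0))

/-- The edges at the vertex `x`. -/
def star (x : Fin 20) : Finset (Fin 30) := Finset.univ.filter fun i => (ends i).testBit x.val

/-- A generic perturbation direction. -/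
def psiList : List ℤ :=
  [11, 153, -164, -104, 93, 111, -89, -22, -77, 81, -4, -76, 53, 23, 3, 19, 94, -97, -106, 12,
    52, 35, -87, 43, -95, 63, -82, 62, 75, 20]

/-- A generic perturbation direction. -/
def psi (i : Fin 30) : ℤ := psiList.getD i.val 0

theorem star_maxStable : ∀ x : Fin 20, IsMaxStable base (star x) := by
  intro x
  rw [isMaxStable_iff]
  revert x
  decide +kernel

theorem star_card : ∀ x : Fin 20, (star x).card = 3 := by decide +kernel

theorem star_psi : ∀ x : Fin 20, ∑ i ∈ star x, psi i = 0 := by decide +kernel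

theorem in_star : ∀ i : Fin 30, ∃ x : Fin 20, i ∈ star x := by decide +kernel

theorem pair_star : ∀ i j : Fin 30, i ≠ j → ¬ base.Adj i j →
    ∃ x : Fin 20, i ∈ star x ∧ j ∈ star x := by decide +kernel

theorem triple_star : ∀ i j : Fin 30, i ≠ j → ¬ base.Adj i j → ∀ k : Fin 30,
    ¬ base.Adj i k → ¬ base.Adj j k → ∀ x : Fin 20, i ∈ star x → j ∈ star x → k ∈ star x := by
  decide +kernel

theorem psi_bound : ∀ i : Fin 30, -200 < psi i := by decide +kernel

theorem psi_one : ∀ i : Fin 30, psi i ≠ 0 := by decide +kernel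

theorem psi_two : ∀ i j : Fin 30, i ≠ j → psi i + psi j ≠ 0 := by decide +kernel

theorem psi_three : ∀ i j : Fin 30, i ≠ j → ∀ k : Fin 30, i ≠ k → j ≠ k →
    psi i + psi j + psi k = 0 → ∃ x : Fin 20, i ∈ star x ∧ j ∈ star x ∧ k ∈ star x := by
  decide +kernel

/-- Every maximal stable set of `base` is a star. -/
theorem maxStable_eq_star (S : Finset (Fin 30)) (hS : IsMaxStable base S) :
    ∃ x : Fin 20, S = star x := by
  have hst := ((isMaxStable_iff base S).1 hS).1
  have key : ∃ x : Fin 20, S ⊆ star x := by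
    by_cases h1 : ∃ i ∈ S, ∃ j ∈ S, i ≠ j
    · obtain ⟨i, hi, j, hj, hij⟩ := h1
      obtain ⟨x, hix, hjx⟩ := pair_star i j hij (hst i hi j hj)
      exact ⟨x, fun k hk => triple_star i j hij (hst i hi j hj) k (hst i hi k hk)
        (hst j hj k hk) x hix hjx⟩
    · push Not at h1
      by_cases h2 : ∃ i, i ∈ S
      · obtain ⟨i, hi⟩ := h2
        obtain ⟨x, hx⟩ := in_star i
        refine ⟨x, fun k hk => ?_⟩
        rw [← h1 i hi k hk]
        exact hx
      · push Not at h2
        exact ⟨0, fun k hk => absurd hk (h2 k)⟩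
  obtain ⟨x, hx⟩ := key
  refine ⟨x, le_antisymm hx ?_⟩
  exact hS.2 (star_maxStable x).1 hx

/-- The constant weighting `1/3`. -/
theorem sum_const_eq (T : Finset (Fin 30)) :
    ∑ _i ∈ T, (1 / 3 : ℝ) = T.card / 3 := by
  rw [Finset.sum_const, nsmul_eq_mul]
  ring

/-- The perturbed weighting. -/
noncomputable def phi (i : Fin 30) : ℝ := 1 / 3 + (psi i : ℝ) / 600

theorem phi_pos (i : Fin 30) : 0 < phi i := by
  have h := psi_bound i
  have h' : (-200 : ℝ) < (psi i : ℝ) := by exact_mod_cast h
  unfold phi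
  linarith

theorem sum_phi_eq (T : Finset (Fin 30)) :
    ∑ i ∈ T, phi i = T.card / 3 + ((∑ i ∈ T, psi i : ℤ) : ℝ) / 600 := by
  unfold phi
  rw [Finset.sum_add_distrib, sum_const_eq, ← Finset.sum_div]
  push_cast
  rfl

theorem psi_sum_ne (T : Finset (Fin 30)) (hT : T.Nonempty) (hns : ¬ IsMaxStable base T)
    (hc : T.card ≤ 3) : ∑ i ∈ T, psi i ≠ 0 := by
  have h0 : T.card ≠ 0 := by
    rw [Ne, Finset.card_eq_zero]
    exact hT.ne_empty
  have hcases : T.card = 1 ∨ T.card = 2 ∨ T.card = 3 := by omega
  rcases hcases with h | h | h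
  · obtain ⟨i, rfl⟩ := Finset.card_eq_one.1 h
    rw [Finset.sum_singleton]
    exact psi_one i
  · obtain ⟨i, j, hij, rfl⟩ := Finset.card_eq_two.1 h
    rw [Finset.sum_pair hij]
    exact psi_two i j hij
  · obtain ⟨i, j, k, hij, hik, hjk, rfl⟩ := Finset.card_eq_three.1 h
    intro hsum
    rw [Finset.sum_insert (by simp [hij, hik]), Finset.sum_pair hjk, ← add_assoc] at hsum
    obtain ⟨x, hi, hj, hk⟩ := psi_three i j hij k hik hjk hsum
    apply hns
    have hsub : ({i, j, k} : Finset (Fin 30)) ⊆ star x := by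
      intro a ha
      simp only [Finset.mem_insert, Finset.mem_singleton] at ha
      rcases ha with rfl | rfl | rfl
      · exact hi
      · exact hj
      · exact hk
    have heq : ({i, j, k} : Finset (Fin 30)) = star x := by
      apply Finset.eq_of_subset_of_card_le hsub
      rw [star_card x, h]
    rw [heq]
    exact star_maxStable x

theorem base_stronglyEquistable : StronglyEquistable base := by
  intro T hT hns γ hγ
  by_cases h : ∑ _i ∈ T, (1 / 3 : ℝ) = γ
  · refine ⟨phi, phi_pos, ?_, ?_⟩
    · intro S hS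
      obtain ⟨x, rfl⟩ := maxStable_eq_star S hS
      rw [sum_phi_eq, star_card, star_psi]
      norm_num
    · rw [sum_phi_eq]
      rw [sum_const_eq] at h
      have hc : T.card ≤ 3 := by
        by_contra hcon
        push Not at hcon
        have : (4 : ℝ) ≤ (T.card : ℝ) := by exact_mod_cast hcon
        linarith
      have hne := psi_sum_ne T hT hns hc
      have hne' : ((∑ i ∈ T, psi i : ℤ) : ℝ) ≠ 0 := by exact_mod_cast hne
      intro heq
      apply hne'
      have : ((∑ i ∈ T, psi i : ℤ) : ℝ) / 600 = 0 := by linarith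
      linarith
  · refine ⟨fun _ => 1 / 3, fun _ => by norm_num, ?_, h⟩
    intro S hS
    obtain ⟨x, rfl⟩ := maxStable_eq_star S hS
    rw [sum_const_eq, star_card]
    norm_num

/-! ### The graph `H`: a single edge -/

theorem edge_maxStable (S : Finset (Fin 2)) (hS : IsMaxStable (⊤ : SimpleGraph (Fin 2)) S) :
    S.card = 1 := by
  rw [isMaxStable_iff] at hS
  revert S
  decide

theorem edge_single (a : Fin 2) : IsMaxStable (⊤ : SimpleGraph (Fin 2)) {a} := by
  rw [isMaxStable_iff]
  revert a
  decide

theorem edge_stronglyEquistable : StronglyEquistable (⊤ : SimpleGraph (Fin 2)) := by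
  intro T hT hns γ hγ
  refine ⟨fun _ => 1, fun _ => one_pos, ?_, ?_⟩
  · intro S hS
    rw [Finset.sum_const, edge_maxStable S hS]
    norm_num
  · rw [Finset.sum_const, nsmul_eq_mul, mul_one]
    have h0 : T.card ≠ 0 := by
      rw [Ne, Finset.card_eq_zero]
      exact hT.ne_empty
    have h1 : T.card ≠ 1 := by
      intro h
      obtain ⟨a, rfl⟩ := Finset.card_eq_one.1 h
      exact hns (edge_single a)
    have h2 : 2 ≤ T.card := by omega
    have h3 : (2 : ℝ) ≤ (T.card : ℝ) := by exact_mod_cast h2
    intro h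
    linarith

/-! ### The graph obtained by substituting `H` for the vertex `0` of `G` -/

/-- The vertices of the new graph. -/
abbrev NewV : Type := {x : Fin 30 // x ≠ 0} ⊕ Fin 2

/-- The new graph. -/
abbrev newG : SimpleGraph NewV := substitute base 0 (⊤ : SimpleGraph (Fin 2))

/-- A computable form of adjacency in the new graph. -/
def adjB (a b : NewV) : Bool :=
  match a, b with
  | .inl x, .inl y => decide (base.Adj x y)
  | .inl x, .inr _ => decide (base.Adj x 0)
  | .inr _, .inl y => decide (base.Adj 0 y)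
  | .inr a, .inr b => decide (a ≠ b)

theorem adjB_iff (a b : NewV) : newG.Adj a b ↔ adjB a b = true := by
  rcases a with x | a <;> rcases b with y | b <;>
    simp [adjB, newG, substitute]

theorem newG_maxStable_iff (S : Finset NewV) : IsMaxStable newG S ↔
    (∀ a ∈ S, ∀ b ∈ S, ¬ adjB a b = true) ∧ ∀ w, w ∉ S → ∃ s ∈ S, adjB s w = true := by
  rw [isMaxStable_iff]
  simp only [adjB_iff]

/-- The vertex of the new graph coming from an old vertex; the old vertex `0` is sent to the
first vertex of the copy of `H`. -/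
def old (i : Fin 30) : NewV := if h : i ≠ 0 then .inl ⟨i, h⟩ else .inr 0

/-- Ten maximal stable sets of the new graph. -/
def fam : Fin 10 → Finset NewV
  | 0 => {.inr 0, old 1, old 2}
  | 1 => {.inr 1, old 1, old 2}
  | 2 => {.inr 1, old 3, old 4}
  | 3 => {old 5, old 6, old 7}
  | 4 => {old 8, old 9, old 10}
  | 5 => {old 11, old 12, old 13}
  | 6 => {old 1, old 8, old 11}
  | 7 => {old 2, old 5, old 12}
  | 8 => {old 3, old 9, old 13}
  | 9 => {old 4, old 6, old 10}

theorem fam_stable : ∀ t : Fin 10, ∀ a ∈ fam t, ∀ b ∈ fam t, ¬ adjB a b = true := by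
  decide +kernel

theorem fam_maximal : ∀ t : Fin 10, ∀ w : NewV, w ∉ fam t → ∃ s ∈ fam t, adjB s w = true := by
  decide +kernel

theorem fam_maxStable (t : Fin 10) : IsMaxStable newG (fam t) :=
  (newG_maxStable_iff _).2 ⟨fam_stable t, fam_maximal t⟩

/-- The set of weight one that is not stable. -/
def bad : Finset NewV := {.inr 0, .inr 1, old 7}

theorem bad_nonempty : bad.Nonempty := ⟨.inr 0, by decide⟩

theorem bad_not_maxStable : ¬ IsMaxStable newG bad := by
  rw [newG_maxStable_iff]
  intro h
  exact h.1 (.inr 0) (by decide) (.inr 1) (by decide) (by decide)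

theorem sum_three {α : Type} [DecidableEq α] (f : α → ℝ) (a b c : α) (hab : a ≠ b) (hac : a ≠ c)
    (hbc : b ≠ c) : ∑ v ∈ ({a, b, c} : Finset α), f v = f a + f b + f c := by
  rw [Finset.sum_insert (by simp [hab, hac]), Finset.sum_pair hbc, ← add_assoc]

theorem bad_sum (φ : NewV → ℝ) (h : ∀ S : Finset NewV, IsMaxStable newG S → ∑ v ∈ S, φ v = 1) :
    ∑ v ∈ bad, φ v = 1 := by
  have h1 := h _ (fam_maxStable 1)
  have h2 := h _ (fam_maxStable 2)
  have h0 := h _ (fam_maxStable 0)
  have h3 := h _ (fam_maxStable 3)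
  have h4 := h _ (fam_maxStable 4)
  have h5 := h _ (fam_maxStable 5)
  have h6 := h _ (fam_maxStable 6)
  have h7 := h _ (fam_maxStable 7)
  have h8 := h _ (fam_maxStable 8)
  have h9 := h _ (fam_maxStable 9)
  unfold fam at h0 h1 h2 h3 h4 h5 h6 h7 h8 h9
  unfold bad
  rw [sum_three φ _ _ _ (by decide) (by decide) (by decide)] at *
  linarith

theorem result : ∃ (V W : Type) (_ : Fintype V) (_ : Fintype W) (_ : Nonempty W)
    (G : SimpleGraph V) (H : SimpleGraph W) (v : V),
    StronglyEquistable G ∧ StronglyEquistable H ∧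
      ¬ StronglyEquistable (substitute G v H) ∧ ¬ Equistable (substitute G v H) := by
  refine ⟨Fin 30, Fin 2, inferInstance, inferInstance, inferInstance, base, ⊤, 0,
    base_stronglyEquistable, edge_stronglyEquistable, ?_, ?_⟩
  · intro hse
    obtain ⟨φ, _, hφ, hne⟩ := hse bad bad_nonempty bad_not_maxStable 1 le_rfl
    exact hne (bad_sum φ hφ)
  · rintro ⟨φ, _, hφ⟩
    exact bad_not_maxStable ((hφ bad).2 (bad_sum φ fun S hS => (hφ S).1 hS))

end Pool.Agent.Results.MP_89a31a_co.NotClosed
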